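import Pool.Agent.E8helper23.SG.Stm
import Pool.Agent.E8helper23.SZ.Lsum

/-! Project SG, piece SUMT: the sum of `tau`. -/

set_option autoImplicit false

namespace Pool.Agent.E8helper64.SG

open Finset
open Pool.Agent.E8helper22.SZ (RealPrim cv tau)
open Pool.Agent.E8helper23.SG (S_SUMT)
open Pool.Agent.Erdos456 (norm_interval_le abel_bound)

/-- the sum of `tau` as a sum over `d` -/
lemma sum_tau {q : ℕ} (χ : DirichletCharacter ℂ q) (N : ℕ) :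
    ∑ k ∈ Icc 1 N, tau χ k = ∑ d ∈ Icc 1 N, cv χ d * ((N / d : ℕ) : ℝ) := by
  unfold tau
  have h1 : ∀ k ∈ Icc 1 N, ∑ d ∈ k.divisors, cv χ d =
      ∑ d ∈ Icc 1 N, if d ∣ k then cv χ d else 0 := by
    intro k hk
    rw [mem_Icc] at hk
    rw [← Finset.sum_filter]
    apply Finset.sum_congr _ (fun _ _ => rfl)
    ext d
    simp only [Nat.mem_divisors, mem_filter, mem_Icc]
    constructor
    · rintro ⟨h1, h2⟩
      exact ⟨⟨Nat.pos_of_dvd_of_pos h1 (by omega), (Nat.le_of_dvd (by omega) h1).trans hk.2⟩, h1⟩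
    · rintro ⟨_, h⟩
      exact ⟨h, by omega⟩
  rw [Finset.sum_congr rfl h1, Finset.sum_comm]
  apply Finset.sum_congr rfl
  intro d hd
  rw [mem_Icc] at hd
  rw [← Finset.sum_filter, Finset.sum_const, nsmul_eq_mul, mul_comm]
  congr 2
  have h2 : Icc 1 N = Ioc 0 N := by
    ext x; simp only [mem_Icc, mem_Ioc]; omega
  rw [h2, Nat.Ioc_filter_dvd_card_eq_div]

lemma split_sum (f : ℕ → ℝ) (D n : ℕ) :
    ∑ d ∈ Icc 1 (D + n), f d = ∑ d ∈ Icc 1 D, f d + ∑ i ∈ range n, f (D + 1 + i) := by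
  induction n with
  | zero => simp
  | succ n ih =>
    rw [← Nat.add_assoc, Finset.sum_Icc_succ_top (by omega), ih, Finset.sum_range_succ, add_assoc]
    congr 2
    congr 1
    omega

lemma range_sum (f : ℕ → ℝ) (D : ℕ) (h0 : f 0 = 0) :
    ∑ i ∈ range (D + 1), f i = ∑ d ∈ Icc 1 D, f d := by
  induction D with
  | zero => simp [h0]
  | succ n ih => rw [Finset.sum_range_succ, ih, Finset.sum_Icc_succ_top (by omega)]

theorem t_SUMT : S_SUMT := by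
  intro q _ χ hq hχ y hy
  have hχ1 : χ ≠ 1 := by
    rintro rfl
    have h := hχ.prim
    rw [DirichletCharacter.isPrimitive_def, DirichletCharacter.conductor_one] at h
    omega
  have hq1 : (1 : ℝ) ≤ q := by exact_mod_cast hq.le
  have hs0 := Real.sqrt_nonneg y
  have hss : Real.sqrt y * Real.sqrt y = y := Real.mul_self_sqrt hy
  obtain ⟨s, hs⟩ : ∃ s, s = Real.sqrt y := ⟨_, rfl⟩
  rw [← hs] at hs0 hss ⊢
  obtain ⟨D, hD⟩ : ∃ D, D = ⌊s⌋₊ := ⟨_, rfl⟩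
  have hD1 : (D : ℝ) ≤ s := hD ▸ Nat.floor_le hs0
  have hD2 : s < D + 1 := by rw [hD]; exact Nat.lt_floor_add_one _
  have hDpos : (0 : ℝ) < D + 1 := by positivity
  have hyD : y / (D + 1) ≤ s := by
    rw [div_le_iff₀ hDpos]; nlinarith
  have hDN : D ≤ ⌊y⌋₊ := by
    have h1 : ((D * D : ℕ) : ℝ) ≤ y := by push_cast; nlinarith [Nat.cast_nonneg (α := ℝ) D]
    have h2 : D * D ≤ ⌊y⌋₊ := Nat.le_floor h1
    exact (Nat.le_mul_self D).trans h2
  have hcv : ∀ d : ℕ, |cv χ d| ≤ 1 := fun d =>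
    (Complex.abs_re_le_norm _).trans (χ.norm_le_one _)
  obtain ⟨n, hn⟩ : ∃ n, ⌊y⌋₊ = D + n := ⟨⌊y⌋₊ - D, by omega⟩
  rw [sum_tau]
  have hsplit : ∑ d ∈ Icc 1 ⌊y⌋₊, cv χ d * ((⌊y⌋₊ / d : ℕ) : ℝ) =
      ∑ d ∈ Icc 1 D, cv χ d * ((⌊y⌋₊ / d : ℕ) : ℝ) +
        ∑ i ∈ range n, cv χ (D + 1 + i) * ((⌊y⌋₊ / (D + 1 + i) : ℕ) : ℝ) := by
    have := split_sum (fun d => cv χ d * ((⌊y⌋₊ / d : ℕ) : ℝ)) D n
    rw [← hn] at this
    exact this
  -- the large `d`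
  have hA : |∑ i ∈ range n, cv χ (D + 1 + i) * ((⌊y⌋₊ / (D + 1 + i) : ℕ) : ℝ)| ≤
      2 * q * s := by
    have h1 := abel_bound (fun i => χ ((D + 1 + i : ℕ) : ZMod q)) (2 * q)
      (norm_interval_le χ hχ1 (D + 1)) (fun i => ((⌊y⌋₊ / (D + 1 + i) : ℕ) : ℝ))
      (fun a b hab => by
        show ((⌊y⌋₊ / (D + 1 + b) : ℕ) : ℝ) ≤ ((⌊y⌋₊ / (D + 1 + a) : ℕ) : ℝ)
        exact_mod_cast Nat.div_le_div_left (by omega) (by omega))
      (fun n => Nat.cast_nonneg _) n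
    have h2 := (Complex.abs_re_le_norm _).trans h1
    rw [Complex.re_sum] at h2
    have h3 : ∀ i ∈ range n, (χ ((D + 1 + i : ℕ) : ZMod q) *
        ((((⌊y⌋₊ / (D + 1 + i) : ℕ) : ℝ)) : ℂ)).re =
        cv χ (D + 1 + i) * ((⌊y⌋₊ / (D + 1 + i) : ℕ) : ℝ) := by
      intro i _
      rw [Complex.re_mul_ofReal]; rfl
    rw [Finset.sum_congr rfl h3] at h2
    refine h2.trans ?_
    apply mul_le_mul_of_nonneg_left _ (by positivity)
    refine (Nat.cast_div_le).trans ?_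
    refine le_trans ?_ hyD
    rw [add_zero]
    push_cast
    exact div_le_div_of_nonneg_right (Nat.floor_le hy) hDpos.le
  -- the small `d`
  have hB : |∑ d ∈ Icc 1 D, cv χ d * (((⌊y⌋₊ / d : ℕ) : ℝ) - y / d)| ≤ s := by
    refine (Finset.abs_sum_le_sum_abs _ _).trans ?_
    have h1 : ∀ d ∈ Icc 1 D, |cv χ d * (((⌊y⌋₊ / d : ℕ) : ℝ) - y / d)| ≤ 1 := by
      intro d _
      rw [abs_mul, ← Nat.floor_div_natCast]
      have h2 := Nat.floor_le (a := y / d) (by positivity)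
      have h3 := Nat.lt_floor_add_one (y / d)
      have h4 : |((⌊y / (d : ℝ)⌋₊ : ℕ) : ℝ) - y / d| ≤ 1 := by
        rw [abs_le]; constructor <;> linarith
      calc |cv χ d| * |((⌊y / (d : ℝ)⌋₊ : ℕ) : ℝ) - y / d| ≤ 1 * 1 :=
            mul_le_mul (hcv d) h4 (abs_nonneg _) zero_le_one
        _ = 1 := one_mul 1
    refine (Finset.sum_le_sum h1).trans ?_
    simp only [Finset.sum_const, Nat.card_Icc, nsmul_eq_mul, mul_one]
    rw [Nat.add_sub_cancel]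
    exact hD1
  -- the value of `L`
  have hC : |∑ d ∈ Icc 1 D, cv χ d / d - (χ.LFunction 1).re| ≤ 2 * q / (D + 1) := by
    have h1 := Pool.Agent.E8helper23.SZ.tail_one χ hχ1 D
    rw [norm_sub_rev] at h1
    have h2 := (Complex.abs_re_le_norm _).trans h1
    rw [Complex.sub_re, Complex.re_sum] at h2
    have h3 : ∀ i ∈ range (D + 1), (χ (i : ZMod q) * (((i : ℝ)⁻¹ : ℝ) : ℂ)).re =
        cv χ i / i := by
      intro i _
      rw [Complex.re_mul_ofReal, div_eq_mul_inv]; rfl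
    rw [Finset.sum_congr rfl h3, range_sum (fun i => cv χ i / i) D (by simp)] at h2
    rw [div_eq_mul_inv]
    push_cast at h2
    exact h2
  have hC2 : |y * (∑ d ∈ Icc 1 D, cv χ d / d - (χ.LFunction 1).re)| ≤ 2 * q * s := by
    rw [abs_mul, abs_of_nonneg hy]
    calc y * |∑ d ∈ Icc 1 D, cv χ d / d - (χ.LFunction 1).re| ≤ y * (2 * q / (D + 1)) :=
          mul_le_mul_of_nonneg_left hC hy
      _ = 2 * q * (y / (D + 1)) := by ring
      _ ≤ 2 * q * s := mul_le_mul_of_nonneg_left hyD (by positivity)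
  have hid : ∑ d ∈ Icc 1 ⌊y⌋₊, cv χ d * ((⌊y⌋₊ / d : ℕ) : ℝ) - y * (χ.LFunction 1).re =
      ∑ d ∈ Icc 1 D, cv χ d * (((⌊y⌋₊ / d : ℕ) : ℝ) - y / d) +
      y * (∑ d ∈ Icc 1 D, cv χ d / d - (χ.LFunction 1).re) +
      ∑ i ∈ range n, cv χ (D + 1 + i) * ((⌊y⌋₊ / (D + 1 + i) : ℕ) : ℝ) := by
    rw [hsplit, mul_sub, Finset.mul_sum]
    have h1 : ∑ d ∈ Icc 1 D, cv χ d * (((⌊y⌋₊ / d : ℕ) : ℝ) - y / d) =
        ∑ d ∈ Icc 1 D, cv χ d * ((⌊y⌋₊ / d : ℕ) : ℝ) - ∑ d ∈ Icc 1 D, y * (cv χ d / d) := by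
      rw [← Finset.sum_sub_distrib]
      apply Finset.sum_congr rfl
      intro d _
      ring
    rw [h1]; ring
  rw [hid]
  refine (abs_add_le _ _).trans ?_
  refine (add_le_add (abs_add_le _ _) le_rfl).trans ?_
  nlinarith
end Pool.Agent.E8helper64.SG
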